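import Mathlib

set_option autoImplicit false

/-!
# The modular lattice of length two, and gluing along join homomorphisms

Helper file for `Pool.Agent.Results.MP_be50aa_co.SixDimensions`.
-/

namespace Pool.Agent.KS6_71.ML

/-! ### The lattice `M_X` of length two with set of atoms `X` -/

/-- The lattice with a bottom, a top and the elements of `X` as pairwise incomparable elements. -/
inductive M (X : Type) : Type
  | bot : M X
  | pt : X → M X
  | top : M X

namespace M

variable {X Y : Type}

/-- The order. -/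
def le' : M X → M X → Prop
  | bot, _ => True
  | pt _, bot => False
  | pt x, pt y => x = y
  | pt _, top => True
  | top, bot => False
  | top, pt _ => False
  | top, top => True

open Classical in
/-- The join. -/
noncomputable def sup' : M X → M X → M X
  | bot, b => b
  | pt x, bot => pt x
  | pt x, pt y => if x = y then pt x else top
  | pt _, top => top
  | top, _ => top

open Classical in
/-- The meet. -/
noncomputable def inf' : M X → M X → M X
  | top, b => b
  | pt x, top => pt x
  | pt x, pt y => if x = y then pt x else bot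
  | pt _, bot => bot
  | bot, _ => bot

noncomputable instance : Lattice (M X) where
  le := le'
  sup := sup'
  inf := inf'
  le_refl a := by cases a <;> simp [le']
  le_trans a b c := by cases a <;> cases b <;> cases c <;> simp_all [le']
  le_antisymm a b := by cases a <;> cases b <;> simp_all [le']
  le_sup_left a b := by
    rcases a with _ | x | _ <;> rcases b with _ | y | _ <;> simp only [sup'] <;>
      (try split_ifs) <;> simp_all [le']
  le_sup_right a b := by
    rcases a with _ | x | _ <;> rcases b with _ | y | _ <;> simp only [sup'] <;>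
      (try split_ifs) <;> simp_all [le']
  sup_le a b c := by
    rcases a with _ | x | _ <;> rcases b with _ | y | _ <;> rcases c with _ | z | _ <;>
      simp only [sup'] <;> (try split_ifs) <;> simp_all [le'] <;>
      (intro h1 h2; exact absurd (h1.trans h2.symm) (by assumption))
  inf_le_left a b := by
    rcases a with _ | x | _ <;> rcases b with _ | y | _ <;> simp only [inf'] <;>
      (try split_ifs) <;> simp_all [le']
  inf_le_right a b := by
    rcases a with _ | x | _ <;> rcases b with _ | y | _ <;> simp only [inf'] <;>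
      (try split_ifs) <;> simp_all [le']
  le_inf a b c := by
    rcases a with _ | x | _ <;> rcases b with _ | y | _ <;> rcases c with _ | z | _ <;>
      simp only [inf'] <;> (try split_ifs) <;> simp_all [le']

@[simp] lemma bot_le' (a : M X) : (bot : M X) ≤ a := by cases a <;> trivial
@[simp] lemma le_top' (a : M X) : a ≤ (top : M X) := by cases a <;> trivial
@[simp] lemma pt_le_pt (x y : X) : (pt x : M X) ≤ pt y ↔ x = y := Iff.rfl
@[simp] lemma pt_le_bot (x : X) : ¬ (pt x : M X) ≤ bot := fun h => h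
@[simp] lemma top_le_bot : ¬ (top : M X) ≤ bot := fun h => h
@[simp] lemma top_le_pt (x : X) : ¬ (top : M X) ≤ pt x := fun h => h
@[simp] lemma bot_sup (a : M X) : (bot : M X) ⊔ a = a := rfl
@[simp] lemma sup_bot (a : M X) : a ⊔ (bot : M X) = a := by cases a <;> rfl
@[simp] lemma top_sup (a : M X) : (top : M X) ⊔ a = top := rfl
@[simp] lemma sup_top (a : M X) : a ⊔ (top : M X) = top := by cases a <;> rfl
@[simp] lemma top_inf (a : M X) : (top : M X) ⊓ a = a := rfl
@[simp] lemma inf_top (a : M X) : a ⊓ (top : M X) = a := by cases a <;> rfl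
@[simp] lemma bot_inf (a : M X) : (bot : M X) ⊓ a = bot := rfl
@[simp] lemma inf_bot (a : M X) : a ⊓ (bot : M X) = bot := by cases a <;> rfl

open Classical in
lemma pt_sup_pt (x y : X) : (pt x : M X) ⊔ pt y = if x = y then pt x else top := rfl

open Classical in
lemma pt_inf_pt (x y : X) : (pt x : M X) ⊓ pt y = if x = y then pt x else bot := rfl

lemma modular (a b c : M X) (h : a ≤ c) : (a ⊔ b) ⊓ c ≤ a ⊔ b ⊓ c := by
  rcases a with _ | x | _ <;> rcases b with _ | y | _ <;> rcases c with _ | z | _ <;>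
    simp [pt_sup_pt, pt_inf_pt] at h ⊢
  · subst h
    split_ifs <;> simp_all
  all_goals (try split_ifs <;> simp_all)

/-- Functoriality. -/
def map (f : X → Y) : M X → M Y
  | bot => bot
  | pt x => pt (f x)
  | top => top

@[simp] lemma map_bot (f : X → Y) : map f bot = bot := rfl
@[simp] lemma map_top (f : X → Y) : map f top = top := rfl
@[simp] lemma map_pt (f : X → Y) (x : X) : map f (pt x) = pt (f x) := rfl

lemma map_sup {f : X → Y} (hf : Function.Injective f) (a b : M X) :
    map f (a ⊔ b) = map f a ⊔ map f b := by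
  rcases a with _ | x | _ <;> rcases b with _ | y | _ <;> simp [pt_sup_pt]
  by_cases h : x = y
  · simp [h]
  · simp [h, hf.ne h]

lemma map_inf {f : X → Y} (hf : Function.Injective f) (a b : M X) :
    map f (a ⊓ b) = map f a ⊓ map f b := by
  rcases a with _ | x | _ <;> rcases b with _ | y | _ <;> simp [pt_inf_pt]
  by_cases h : x = y
  · simp [h]
  · simp [h, hf.ne h]

lemma map_mono (f : X → Y) {a b : M X} (h : a ≤ b) : map f a ≤ map f b := by
  rcases a with _ | x | _ <;> rcases b with _ | y | _ <;> simp_all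

lemma map_map {Z : Type} (g : Y → Z) (f : X → Y) (a : M X) : map g (map f a) = map (g ∘ f) a := by
  cases a <;> rfl

lemma map_id' (f : X → X) (hf : ∀ x, f x = x) (a : M X) : map f a = a := by
  cases a <;> simp [hf]

lemma ext_pt (h2 : ∀ a : X, ∃ b, b ≠ a) {a b : M X} (h : ∀ x : X, pt x ≤ a ↔ pt x ≤ b)
    (hne : Nonempty X) : a = b := by
  obtain ⟨x0⟩ := hne
  rcases a with _ | x | _ <;> rcases b with _ | y | _
  · rfl
  · exact absurd ((h y).2 (by simp)) (by simp)
  · exact absurd ((h x0).2 (by simp)) (by simp)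
  · exact absurd ((h x).1 (by simp)) (by simp)
  · have := (h x).1 (by simp)
    simp at this
    rw [this]
  · obtain ⟨z, hz⟩ := h2 x
    have := (h z).2 (by simp)
    simp at this
    exact absurd this hz
  · exact absurd ((h x0).1 (by simp)) (by simp)
  · obtain ⟨z, hz⟩ := h2 y
    have := (h z).1 (by simp)
    simp at this
    exact absurd this hz
  · rfl

end M

/-! ### Bounded order, automorphisms, codes, ranks -/

section More

variable {X Y : Type}

instance : BoundedOrder (M X) where
  top := M.top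
  le_top := M.le_top'
  bot := M.bot
  bot_le := M.bot_le'

lemma bot_def : (⊥ : M X) = M.bot := rfl
lemma top_def : (⊤ : M X) = M.top := rfl

instance : IsModularLattice (M X) where
  sup_inf_le_assoc_of_le := fun {x} y {z} h => M.modular x y z h

instance : Nontrivial (M X) := ⟨⟨M.bot, M.top, by simp⟩⟩

/-- The underlying set has two more elements than `X`. -/
def mEquiv (X : Type) : M X ≃ Option (Option X) where
  toFun a := match a with
    | M.bot => none
    | M.pt x => some (some x)
    | M.top => some none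
  invFun a := match a with
    | none => M.bot
    | some (some x) => M.pt x
    | some none => M.top
  left_inv a := by cases a <;> rfl
  right_inv a := by rcases a with _ | _ | _ <;> rfl

instance [Finite X] : Finite (M X) := Finite.of_equiv _ (mEquiv X).symm

lemma card_M [Finite X] : Nat.card (M X) = Nat.card X + 2 := by
  rw [Nat.card_congr (mEquiv X), Finite.card_option, Finite.card_option]

/-- A permutation of the points gives an automorphism. -/
def mIso (τ : Equiv.Perm X) : M X ≃o M X where
  toFun := M.map τ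
  invFun := M.map τ.symm
  left_inv a := by rw [M.map_map]; exact M.map_id' _ (fun x => by simp) a
  right_inv a := by rw [M.map_map]; exact M.map_id' _ (fun x => by simp) a
  map_rel_iff' := by
    intro a b
    constructor
    · intro h
      have h1 := M.map_mono τ.symm h
      have h2 : ∀ c : M X, M.map τ.symm (M.map τ c) = c := fun c => by
        rw [M.map_map]; exact M.map_id' _ (fun x => by simp) c
      change M.map τ.symm (M.map τ a) ≤ M.map τ.symm (M.map τ b) at h1
      rwa [h2, h2] at h1
    · exact fun h => M.map_mono τ h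

@[simp] lemma mIso_apply (τ : Equiv.Perm X) (a : M X) : mIso τ a = M.map τ a := rfl

/-- Every automorphism of `M X` comes from a permutation. -/
lemma exists_mIso (ψ : M X ≃o M X) : ∃ τ : Equiv.Perm X, ψ = mIso τ := by
  have key : ∀ (ψ : M X ≃o M X) (x : X), ∃ y, ψ (M.pt x) = M.pt y := by
    intro ψ x
    rcases h : ψ (M.pt x) with _ | y | _
    · exfalso
      have h1 : ψ (M.pt x) = ψ ⊥ := by rw [h, map_bot]; rfl
      have := ψ.injective h1
      simp [bot_def] at this
    · exact ⟨y, rfl⟩
    · exfalso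
      have h1 : ψ (M.pt x) = ψ ⊤ := by rw [h, map_top]; rfl
      have := ψ.injective h1
      simp [top_def] at this
  choose f hf using key ψ
  choose g hg using key ψ.symm
  refine ⟨⟨f, g, fun x => ?_, fun x => ?_⟩, ?_⟩
  · have h1 : ψ.symm (ψ (M.pt x)) = M.pt x := ψ.symm_apply_apply _
    rw [hf, hg] at h1
    simpa using h1
  · have h1 : ψ (ψ.symm (M.pt x)) = M.pt x := ψ.apply_symm_apply _
    rw [hg, hf] at h1
    simpa using h1
  · apply OrderIso.ext
    funext a
    rcases a with _ | x | _
    · exact map_bot ψ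
    · exact hf x
    · exact map_top ψ

/-- The embedding of `M_X` in a product of two chains. -/
noncomputable def emb {n : ℕ} (f : X ≃ Fin n) : M X → ℕ × ℕ
  | M.bot => (0, 0)
  | M.pt x => ((f x : ℕ) + 1, n - (f x : ℕ))
  | M.top => (n + 1, n + 1)

lemma emb_le {n : ℕ} (f : X ≃ Fin n) (a b : M X) : a ≤ b ↔ emb f a ≤ emb f b := by
  rcases a with _ | x | _ <;> rcases b with _ | y | _
  · exact iff_of_true (by simp) (le_refl _)
  · exact iff_of_true (by simp) (Prod.mk_le_mk.2 ⟨by omega, by omega⟩)
  · exact iff_of_true (by simp) (Prod.mk_le_mk.2 ⟨by omega, by omega⟩)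
  · have h := (f x).2
    exact iff_of_false (by simp) (fun h' => by have := (Prod.mk_le_mk.1 h').1; omega)
  · have h3 := (f x).2
    have h4 := (f y).2
    constructor
    · intro h
      rw [M.pt_le_pt] at h
      rw [h]
    · intro h
      obtain ⟨h1, h2⟩ := Prod.mk_le_mk.1 h
      rw [M.pt_le_pt]
      apply f.injective
      apply Fin.ext
      omega
  · have h := (f x).2
    exact iff_of_true (by simp) (Prod.mk_le_mk.2 ⟨by omega, by omega⟩)
  · exact iff_of_false (by simp) (fun h' => by have := (Prod.mk_le_mk.1 h').1; omega)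
  · have h := (f y).2
    exact iff_of_false (by simp) (fun h' => by
      obtain ⟨h1, h2⟩ := Prod.mk_le_mk.1 h'
      omega)
  · exact iff_of_true (by simp) (le_refl _)

/-- The rank. -/
def rk : M X → ℕ
  | M.bot => 0
  | M.pt _ => 1
  | M.top => 2

lemma rk_le (a : M X) : rk a ≤ 2 := by cases a <;> simp [rk]

lemma rk_mono {a b : M X} (h : a ≤ b) : rk a ≤ rk b := by
  rcases a with _ | x | _ <;> rcases b with _ | y | _ <;> simp_all [rk]

lemma rk_inj {a b : M X} (h : a ≤ b) (h' : rk b ≤ rk a) : a = b := by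
  rcases a with _ | x | _ <;> rcases b with _ | y | _ <;> simp_all [rk]

end More

/-! ### Gluing -/

section Glue

variable {A B : Type} [Lattice A] [Lattice B] [BoundedOrder A] [BoundedOrder B]

/-- The pairs `(a, b)` with `f b ≤ a`, for a join homomorphism `f : B → A`. -/
def Gl (f : SupBotHom B A) : Sublattice (A × B) where
  carrier := {x | f x.2 ≤ x.1}
  supClosed' := by
    intro x hx y hy
    change f (x.2 ⊔ y.2) ≤ x.1 ⊔ y.1
    rw [map_sup]
    exact sup_le_sup hx hy
  infClosed' := by
    intro x hx y hy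
    change f (x.2 ⊓ y.2) ≤ x.1 ⊓ y.1
    exact le_inf ((OrderHomClass.mono f inf_le_left).trans hx)
      ((OrderHomClass.mono f inf_le_right).trans hy)

variable {f : SupBotHom B A}

lemma Gl.prop (x : Gl f) : f x.1.2 ≤ x.1.1 := x.2

instance : BoundedOrder (Gl f) where
  top := ⟨(⊤, ⊤), le_top⟩
  le_top x := ⟨le_top, le_top⟩
  bot := ⟨(⊥, ⊥), by change f ⊥ ≤ ⊥; rw [map_bot]⟩
  bot_le x := ⟨bot_le, bot_le⟩

lemma Gl.top_val : ((⊤ : Gl f) : A × B) = (⊤, ⊤) := rfl
lemma Gl.bot_val : ((⊥ : Gl f) : A × B) = (⊥, ⊥) := rfl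

instance [IsModularLattice A] [IsModularLattice B] : IsModularLattice (Gl f) where
  sup_inf_le_assoc_of_le := by
    intro x y z h
    exact ⟨IsModularLattice.sup_inf_le_assoc_of_le _ h.1,
      IsModularLattice.sup_inf_le_assoc_of_le _ h.2⟩

instance [Finite A] [Finite B] : Finite (Gl f) := by
  infer_instance

instance [Nontrivial A] : Nontrivial (Gl f) :=
  ⟨⟨⊥, ⊤, fun h => bot_ne_top (congrArg (fun x : Gl f => x.1.1) h)⟩⟩

/-- The element `(a, ⊥)`. -/
def lo (a : A) : Gl f := ⟨(a, ⊥), by change f ⊥ ≤ a; rw [map_bot]; exact bot_le⟩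

/-- The element `(⊤, b)`. -/
def hi (b : B) : Gl f := ⟨(⊤, b), le_top⟩

/-- The element `(f b, b)`. -/
def gr (b : B) : Gl f := ⟨(f b, b), le_rfl⟩

/-- Automorphisms of the parts commuting with `f` give an automorphism. -/
def glIso (e : A ≃o A) (e' : B ≃o B) (h : ∀ b, e (f b) = f (e' b)) : Gl f ≃o Gl f where
  toFun x := ⟨(e x.1.1, e' x.1.2), by
    change f (e' x.1.2) ≤ e x.1.1
    rw [← h, e.le_iff_le]; exact x.2⟩
  invFun x := ⟨(e.symm x.1.1, e'.symm x.1.2), by
    change f (e'.symm x.1.2) ≤ e.symm x.1.1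
    rw [← e.le_iff_le, h, e'.apply_symm_apply, e.apply_symm_apply]; exact x.2⟩
  left_inv x := by
    apply Subtype.ext
    simp
  right_inv x := by
    apply Subtype.ext
    simp
  map_rel_iff' := by
    intro x y
    change (e x.1.1 ≤ e y.1.1 ∧ e' x.1.2 ≤ e' y.1.2) ↔ (x.1.1 ≤ y.1.1 ∧ x.1.2 ≤ y.1.2)
    rw [e.le_iff_le, e'.le_iff_le]

lemma isCoatom_iff (hf : f ⊤ = ⊤) (x : Gl f) :
    IsCoatom x ↔ ∃ b, IsCoatom b ∧ x = hi b := by
  constructor
  · intro hx
    have hb : x.1.2 ≠ ⊤ := by
      intro hb
      apply hx.1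
      have h1 : f x.1.2 ≤ x.1.1 := x.2
      rw [hb, hf, top_le_iff] at h1
      exact Subtype.ext (Prod.ext h1 hb)
    have h1 : x ≤ hi x.1.2 := ⟨le_top, le_rfl⟩
    have h2 : (hi x.1.2 : Gl f) ≠ ⊤ := fun h => hb (congrArg (fun y : Gl f => y.1.2) h)
    have h3 : x = hi x.1.2 := by
      by_contra hne
      exact h2 (hx.2 _ (lt_of_le_of_ne h1 hne))
    refine ⟨x.1.2, ⟨hb, fun c hc => ?_⟩, h3⟩
    have h4 : x < hi c := by
      refine lt_of_le_of_ne ⟨le_top, hc.le⟩ ?_
      intro h
      exact hc.ne (congrArg (fun y : Gl f => y.1.2) h)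
    exact congrArg (fun y : Gl f => y.1.2) (hx.2 _ h4)
  · rintro ⟨b, hb, rfl⟩
    refine ⟨fun h => hb.1 (congrArg (fun y : Gl f => y.1.2) h), fun y hy => ?_⟩
    have h1 : y.1.1 = ⊤ := top_le_iff.1 hy.le.1
    have h2 : b ≤ y.1.2 := hy.le.2
    have h3 : b ≠ y.1.2 := by
      rintro rfl
      exact hy.ne (Subtype.ext (Prod.ext h1.symm rfl))
    exact Subtype.ext (Prod.ext h1 (hb.2 _ (lt_of_le_of_ne h2 h3)))

/-- The bottom is the meet of the coatoms. -/
def Cob (B : Type) [Lattice B] [BoundedOrder B] : Prop :=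
  ∀ b : B, (∀ c, IsCoatom c → b ≤ c) → b = ⊥

lemma map_mid (hf : f ⊤ = ⊤) (hB : Cob B) (φ : Gl f ≃o Gl f) :
    φ (lo ⊤) = lo ⊤ := by
  have key : ∀ φ : Gl f ≃o Gl f, φ (lo ⊤) ≤ lo ⊤ := by
    intro φ
    have h1 : ∀ c : B, IsCoatom c → (φ (lo ⊤)).1.2 ≤ c := by
      intro c hc
      have h2 : IsCoatom (hi c : Gl f) := (isCoatom_iff hf _).2 ⟨c, hc, rfl⟩
      have h3 : IsCoatom (φ.symm (hi c)) := (OrderIso.isCoatom_iff φ.symm _).2 h2
      obtain ⟨b, hb, hb'⟩ := (isCoatom_iff hf _).1 h3
      have h4 : (lo ⊤ : Gl f) ≤ φ.symm (hi c) := by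
        rw [hb']
        exact ⟨le_rfl, bot_le⟩
      have h5 : φ (lo ⊤) ≤ hi c := by
        rw [← φ.symm.le_iff_le, φ.symm_apply_apply]
        exact h4
      exact h5.2
    exact ⟨le_top, (hB _ h1).le⟩
  apply le_antisymm (key φ)
  rw [← φ.symm.le_iff_le, φ.symm_apply_apply]
  exact key φ.symm

/-- An automorphism fixing the middle element is a pair of automorphisms. -/
theorem exists_glIso (hf : f ⊤ = ⊤) (hB : Cob B) (φ : Gl f ≃o Gl f) :
    ∃ (e : A ≃o A) (e' : B ≃o B) (h : ∀ b, e (f b) = f (e' b)), φ = glIso e e' h := by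
  have key1 : ∀ (φ : Gl f ≃o Gl f) (a : A), φ (lo a) = lo (φ (lo a)).1.1 := by
    intro φ a
    have h1 : (lo a : Gl f) ≤ lo ⊤ := ⟨le_top, le_rfl⟩
    have h2 := φ.monotone h1
    rw [map_mid hf hB φ] at h2
    exact Subtype.ext (Prod.ext rfl (le_bot_iff.1 h2.2))
  have key2 : ∀ (φ : Gl f ≃o Gl f) (b : B), φ (hi b) = hi (φ (hi b)).1.2 := by
    intro φ b
    have h1 : (lo ⊤ : Gl f) ≤ hi b := ⟨le_rfl, bot_le⟩
    have h2 := φ.monotone h1
    rw [map_mid hf hB φ] at h2
    exact Subtype.ext (Prod.ext (top_le_iff.1 h2.1) rfl)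
  let e : A ≃o A :=
    { toFun := fun a => (φ (lo a)).1.1
      invFun := fun a => (φ.symm (lo a)).1.1
      left_inv := fun a => by
        change (φ.symm (lo (φ (lo a)).1.1)).1.1 = a
        rw [← key1 φ a, φ.symm_apply_apply]; rfl
      right_inv := fun a => by
        change (φ (lo (φ.symm (lo a)).1.1)).1.1 = a
        rw [← key1 φ.symm a, φ.apply_symm_apply]; rfl
      map_rel_iff' := by
        intro a b
        change (φ (lo a)).1.1 ≤ (φ (lo b)).1.1 ↔ a ≤ b
        constructor
        · intro h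
          have h1 : φ (lo a) ≤ φ (lo b) := by
            rw [key1 φ a, key1 φ b]
            exact ⟨h, le_rfl⟩
          exact (φ.le_iff_le.1 h1).1
        · intro h
          have h1 : (lo a : Gl f) ≤ lo b := ⟨h, le_rfl⟩
          exact (φ.monotone h1).1 }
  let e' : B ≃o B :=
    { toFun := fun b => (φ (hi b)).1.2
      invFun := fun b => (φ.symm (hi b)).1.2
      left_inv := fun b => by
        change (φ.symm (hi (φ (hi b)).1.2)).1.2 = b
        rw [← key2 φ b, φ.symm_apply_apply]; rfl
      right_inv := fun b => by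
        change (φ (hi (φ.symm (hi b)).1.2)).1.2 = b
        rw [← key2 φ.symm b, φ.apply_symm_apply]; rfl
      map_rel_iff' := by
        intro a b
        change (φ (hi a)).1.2 ≤ (φ (hi b)).1.2 ↔ a ≤ b
        constructor
        · intro h
          have h1 : φ (hi a) ≤ φ (hi b) := by
            rw [key2 φ a, key2 φ b]
            exact ⟨le_rfl, h⟩
          exact (φ.le_iff_le.1 h1).2
        · intro h
          have h1 : (hi a : Gl f) ≤ hi b := ⟨le_rfl, h⟩
          exact (φ.monotone h1).2 }
  have hval : ∀ x : Gl f, (φ x).1 = (e x.1.1, e' x.1.2) := by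
    intro x
    have h1 : x ⊓ lo ⊤ = lo x.1.1 := Subtype.ext (Prod.ext (inf_top_eq _) (inf_bot_eq _))
    have h2 : x ⊔ lo ⊤ = hi x.1.2 := Subtype.ext (Prod.ext (sup_top_eq _) (sup_bot_eq _))
    have h3 := φ.map_inf x (lo ⊤)
    have h4 := φ.map_sup x (lo ⊤)
    rw [h1, map_mid hf hB φ] at h3
    rw [h2, map_mid hf hB φ] at h4
    refine Prod.ext ?_ ?_
    · have h5 := congrArg (fun y : Gl f => y.1.1) h3
      have h6 : (φ (lo x.1.1)).1.1 = (φ x).1.1 ⊓ ⊤ := h5
      rw [inf_top_eq] at h6
      exact h6.symm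
    · have h5 := congrArg (fun y : Gl f => y.1.2) h4
      have h6 : (φ (hi x.1.2)).1.2 = (φ x).1.2 ⊔ ⊥ := h5
      rw [sup_bot_eq] at h6
      exact h6.symm
  have hval' : ∀ x : Gl f, (φ.symm x).1 = (e.symm x.1.1, e'.symm x.1.2) := by
    intro x
    obtain ⟨y, rfl⟩ := φ.surjective x
    rw [φ.symm_apply_apply, hval]
    simp
  have heq : ∀ b, e (f b) = f (e' b) := by
    intro b
    apply le_antisymm
    · have h1 : f (φ.symm (gr (e' b))).1.2 ≤ (φ.symm (gr (e' b))).1.1 := (φ.symm (gr (e' b))).2
      rw [hval'] at h1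
      have h2 : f (e'.symm (e' b)) ≤ e.symm (f (e' b)) := h1
      rw [e'.symm_apply_apply] at h2
      rw [← e.symm.le_iff_le, e.symm_apply_apply]
      exact h2
    · have h1 : f (φ (gr b)).1.2 ≤ (φ (gr b)).1.1 := (φ (gr b)).2
      rw [hval] at h1
      exact h1
  refine ⟨e, e', heq, ?_⟩
  apply OrderIso.ext
  funext x
  exact Subtype.ext (hval x)

variable {C : Type} [Lattice C] [BoundedOrder C]

open Classical in
/-- The next gluing homomorphism: `c` forces `m c` in the block below and everything further down. -/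
noncomputable def next (f : SupBotHom B A) (m : SupBotHom C B) : SupBotHom C (Gl f) where
  toFun c := ⟨(if c = ⊥ then ⊥ else ⊤, m c), by
    change f (m c) ≤ if c = ⊥ then ⊥ else ⊤
    split_ifs with h
    · rw [h, map_bot, map_bot]
    · exact le_top⟩
  map_sup' a b := by
    apply Subtype.ext
    change ((if a ⊔ b = ⊥ then ⊥ else ⊤, m (a ⊔ b)) : A × B) =
      ((if a = ⊥ then ⊥ else ⊤) ⊔ (if b = ⊥ then ⊥ else ⊤), m a ⊔ m b)
    refine Prod.ext ?_ (map_sup m a b)
    by_cases ha : a = ⊥
    · by_cases hb : b = ⊥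
      · simp [ha, hb]
      · simp [ha, hb]
    · by_cases hb : b = ⊥
      · simp [ha, hb]
      · simp [ha, hb]
  map_bot' := by
    apply Subtype.ext
    change ((if (⊥ : C) = ⊥ then ⊥ else ⊤, m ⊥) : A × B) = (⊥, ⊥)
    rw [if_pos rfl, map_bot]

open Classical in
lemma next_val (f : SupBotHom B A) (m : SupBotHom C B) (c : C) :
    (next f m c).1 = (if c = ⊥ then ⊥ else ⊤, m c) := rfl

lemma next_top [Nontrivial C] (f : SupBotHom B A) (m : SupBotHom C B) (hm : m ⊤ = ⊤) :
    next f m ⊤ = ⊤ := by
  classical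
  apply Subtype.ext
  rw [next_val, hm, if_neg (top_ne_bot)]
  rfl

/-- Equivariance passes to the next level. -/
lemma next_equiv (f : SupBotHom B A) (m : SupBotHom C B) (e : A ≃o A) (e' : B ≃o B)
    (e'' : C ≃o C) (h : ∀ b, e (f b) = f (e' b)) (h' : ∀ c, e' (m c) = m (e'' c)) (c : C) :
    glIso e e' h (next f m c) = next f m (e'' c) := by
  classical
  apply Subtype.ext
  change (e (next f m c).1.1, e' (next f m c).1.2) = (next f m (e'' c)).1
  rw [next_val, next_val]
  refine Prod.ext ?_ (h' c)
  by_cases hc : c = ⊥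
  · subst hc
    simp
  · have h1 : e'' c ≠ ⊥ := fun h2 => hc (by
      have := congrArg e''.symm h2
      simpa using this)
    simp [hc, h1]

/-- Equivariance at the next level gives equivariance of the matching. -/
lemma equiv_of_next {f : SupBotHom B A} {m : SupBotHom C B} {e : A ≃o A} {e' : B ≃o B}
    {e'' : C ≃o C} {h : ∀ b, e (f b) = f (e' b)}
    (h' : ∀ c, glIso e e' h (next f m c) = next f m (e'' c)) (c : C) : e' (m c) = m (e'' c) := by
  have := congrArg (fun y : Gl f => y.1.2) (h' c)
  exact this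

/-- What the elements of the glued lattice look like. -/
lemma next_prop {f : SupBotHom B A} {m : SupBotHom C B} (x : Gl (next f m)) (hx : x.1.2 ≠ ⊥) :
    x.1.1.1.1 = ⊤ := by
  classical
  have h1 : next f m x.1.2 ≤ x.1.1 := x.2
  have h2 : (if x.1.2 = ⊥ then (⊥ : A) else ⊤) ≤ x.1.1.1.1 := h1.1
  rw [if_neg hx] at h2
  exact top_le_iff.1 h2

end Glue

end Pool.Agent.KS6_71.ML
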