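import Mathlib
import Pool.Agent.KS6_71.ML.Base

set_option autoImplicit false

/-!
# The tower of five blocks attached to two permutations

Helper file for `Pool.Agent.Results.MP_be50aa_co.SixDimensions`.
-/

namespace Pool.Agent.KS6_71.ML

section Blocks

variable {A B : Type} [Lattice A] [Lattice B] [BoundedOrder A] [BoundedOrder B]

lemma Cob.prod (hA : Cob A) (hB : Cob B) : Cob (A × B) := by
  intro x hx
  refine Prod.ext ?_ ?_
  · apply hA
    intro c hc
    have : IsCoatom ((c, ⊤) : A × B) := by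
      refine ⟨fun h => hc.1 (congrArg Prod.fst h), fun y hy => ?_⟩
      have h1 : c ≤ y.1 := hy.le.1
      have h2 : y.2 = ⊤ := top_le_iff.1 hy.le.2
      have h3 : c ≠ y.1 := fun h => hy.ne (Prod.ext h h2.symm)
      exact Prod.ext (hc.2 _ (lt_of_le_of_ne h1 h3)) h2
    exact (hx _ this).1
  · apply hB
    intro c hc
    have : IsCoatom ((⊤, c) : A × B) := by
      refine ⟨fun h => hc.1 (congrArg Prod.snd h), fun y hy => ?_⟩
      have h1 : c ≤ y.2 := hy.le.2
      have h2 : y.1 = ⊤ := top_le_iff.1 hy.le.1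
      have h3 : c ≠ y.2 := fun h => hy.ne (Prod.ext h2.symm h)
      exact Prod.ext h2 (hc.2 _ (lt_of_le_of_ne h1 h3))
    exact (hx _ this).2

/-- Only the bounds have exactly one complement. -/
def UC (A : Type) [Lattice A] [BoundedOrder A] : Prop :=
  ∀ a b : A, IsCompl a b → (∀ c, IsCompl a c → c = b) → a = ⊥ ∨ a = ⊤

lemma compl_prod {a c : A} {b d : B} : IsCompl (a, b) (c, d) ↔ IsCompl a c ∧ IsCompl b d := by
  rw [Prod.isCompl_iff]

lemma fix_mid [Finite A] [Finite B] [Nontrivial A] [Nontrivial B] (hA : UC A) (hB : UC B)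
    (hc : Nat.card A ≠ Nat.card B) (ψ : (A × B) ≃o (A × B)) : ψ (⊤, ⊥) = (⊤, ⊥) := by
  -- the image has exactly one complement
  have h1 : IsCompl (ψ (⊤, ⊥)) (ψ (⊥, ⊤)) := by
    have : IsCompl ((⊤, ⊥) : A × B) (⊥, ⊤) := compl_prod.2 ⟨isCompl_top_bot, isCompl_bot_top⟩
    exact (OrderIso.isCompl_iff ψ).1 this
  have h2 : ∀ y, IsCompl (ψ (⊤, ⊥)) y → y = ψ (⊥, ⊤) := by
    intro y hy
    obtain ⟨z, rfl⟩ := ψ.surjective y
    have h3 : IsCompl ((⊤, ⊥) : A × B) z := (OrderIso.isCompl_iff ψ).2 hy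
    obtain ⟨h4, h5⟩ := compl_prod.1 h3
    rw [show z = (⊥, ⊤) from Prod.ext (eq_bot_of_top_isCompl h4) (eq_top_of_bot_isCompl h5)]
  rcases hab : ψ (⊤, ⊥) with ⟨a, b⟩
  rcases hcd : ψ (⊥, ⊤) with ⟨c, d⟩
  rw [hab, hcd] at h1
  rw [hab, hcd] at h2
  obtain ⟨h3, h4⟩ := compl_prod.1 h1
  have h5 := hA a c h3 (fun c' hc' => congrArg Prod.fst (h2 (c', d) (compl_prod.2 ⟨hc', h4⟩)))
  have h6 := hB b d h4 (fun d' hd' => congrArg Prod.snd (h2 (c, d') (compl_prod.2 ⟨h3, hd'⟩)))
  rcases h5 with rfl | rfl <;> rcases h6 with rfl | rfl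
  · exfalso
    have h7 : ψ (⊤, ⊥) = ψ ⊥ := by rw [hab, map_bot]; rfl
    have h8 := congrArg Prod.fst (ψ.injective h7)
    exact top_ne_bot h8
  · exfalso
    apply hc
    -- the two intervals are isomorphic
    have h9 : ∀ x : A, (ψ (x, ⊥)).1 = ⊥ := by
      intro x
      have h10 : ψ (x, ⊥) ≤ ψ (⊤, ⊥) := ψ.monotone ⟨le_top, le_rfl⟩
      rw [hab] at h10
      exact le_bot_iff.1 h10.1
    have h10 : ∀ x : B, (ψ.symm (⊥, x)).2 = ⊥ := by
      intro x
      have h11 : ψ.symm (⊥, x) ≤ ψ.symm (⊥, ⊤) := ψ.symm.monotone ⟨le_rfl, le_top⟩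
      rw [← hab, ψ.symm_apply_apply] at h11
      exact le_bot_iff.1 h11.2
    apply Nat.card_congr
    refine ⟨fun x => (ψ (x, ⊥)).2, fun x => (ψ.symm (⊥, x)).1, fun x => ?_, fun x => ?_⟩
    · have h11 : ((⊥, (ψ (x, ⊥)).2) : A × B) = ψ (x, ⊥) := Prod.ext (h9 x).symm rfl
      change (ψ.symm (⊥, (ψ (x, ⊥)).2)).1 = x
      rw [h11, ψ.symm_apply_apply]
    · have h11 : (((ψ.symm (⊥, x)).1, ⊥) : A × B) = ψ.symm (⊥, x) := Prod.ext rfl (h10 x).symm
      change (ψ ((ψ.symm (⊥, x)).1, ⊥)).2 = x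
      rw [h11, ψ.apply_symm_apply]
  · rfl
  · exfalso
    have h7 : ψ (⊤, ⊥) = ψ ⊤ := by rw [hab, map_top]; rfl
    have h8 := congrArg Prod.snd (ψ.injective h7)
    exact bot_ne_top h8

/-- The product of two automorphisms. -/
def prIso (e : A ≃o A) (e' : B ≃o B) : (A × B) ≃o (A × B) where
  toFun x := (e x.1, e' x.2)
  invFun x := (e.symm x.1, e'.symm x.2)
  left_inv x := by simp
  right_inv x := by simp
  map_rel_iff' := by
    intro x y
    change (e x.1 ≤ e y.1 ∧ e' x.2 ≤ e' y.2) ↔ (x.1 ≤ y.1 ∧ x.2 ≤ y.2)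
    rw [e.le_iff_le, e'.le_iff_le]

theorem exists_prIso [Finite A] [Finite B] [Nontrivial A] [Nontrivial B] (hA : UC A) (hB : UC B)
    (hc : Nat.card A ≠ Nat.card B) (φ : (A × B) ≃o (A × B)) :
    ∃ (e : A ≃o A) (e' : B ≃o B), φ = prIso e e' := by
  have key1 : ∀ (φ : (A × B) ≃o (A × B)) (a : A), φ (a, ⊥) = ((φ (a, ⊥)).1, ⊥) := by
    intro φ a
    have h1 : ((a, ⊥) : A × B) ≤ (⊤, ⊥) := ⟨le_top, le_rfl⟩
    have h2 := φ.monotone h1
    rw [fix_mid hA hB hc φ] at h2
    exact Prod.ext rfl (le_bot_iff.1 h2.2)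
  have key2 : ∀ (φ : (A × B) ≃o (A × B)) (b : B), φ (⊤, b) = (⊤, (φ (⊤, b)).2) := by
    intro φ b
    have h1 : ((⊤, ⊥) : A × B) ≤ (⊤, b) := ⟨le_rfl, bot_le⟩
    have h2 := φ.monotone h1
    rw [fix_mid hA hB hc φ] at h2
    exact Prod.ext (top_le_iff.1 h2.1) rfl
  let e : A ≃o A :=
    { toFun := fun a => (φ (a, ⊥)).1
      invFun := fun a => (φ.symm (a, ⊥)).1
      left_inv := fun a => by
        change (φ.symm ((φ (a, ⊥)).1, ⊥)).1 = a
        rw [← key1 φ a, φ.symm_apply_apply]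
      right_inv := fun a => by
        change (φ ((φ.symm (a, ⊥)).1, ⊥)).1 = a
        rw [← key1 φ.symm a, φ.apply_symm_apply]
      map_rel_iff' := by
        intro a b
        change (φ (a, ⊥)).1 ≤ (φ (b, ⊥)).1 ↔ a ≤ b
        constructor
        · intro h
          have h1 : φ (a, ⊥) ≤ φ (b, ⊥) := by
            rw [key1 φ a, key1 φ b]
            exact ⟨h, le_rfl⟩
          exact (φ.le_iff_le.1 h1).1
        · intro h
          have h1 : ((a, ⊥) : A × B) ≤ (b, ⊥) := ⟨h, le_rfl⟩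
          exact (φ.monotone h1).1 }
  let e' : B ≃o B :=
    { toFun := fun b => (φ (⊤, b)).2
      invFun := fun b => (φ.symm (⊤, b)).2
      left_inv := fun b => by
        change (φ.symm (⊤, (φ (⊤, b)).2)).2 = b
        rw [← key2 φ b, φ.symm_apply_apply]
      right_inv := fun b => by
        change (φ (⊤, (φ.symm (⊤, b)).2)).2 = b
        rw [← key2 φ.symm b, φ.apply_symm_apply]
      map_rel_iff' := by
        intro a b
        change (φ (⊤, a)).2 ≤ (φ (⊤, b)).2 ↔ a ≤ b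
        constructor
        · intro h
          have h1 : φ (⊤, a) ≤ φ (⊤, b) := by
            rw [key2 φ a, key2 φ b]
            exact ⟨le_rfl, h⟩
          exact (φ.le_iff_le.1 h1).2
        · intro h
          have h1 : ((⊤, a) : A × B) ≤ (⊤, b) := ⟨le_rfl, h⟩
          exact (φ.monotone h1).2 }
  refine ⟨e, e', ?_⟩
  apply OrderIso.ext
  funext x
  change φ x = ((φ (x.1, ⊥)).1, (φ (⊤, x.2)).2)
  have h1 : x ⊓ (⊤, ⊥) = (x.1, ⊥) := Prod.ext (inf_top_eq _) (inf_bot_eq _)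
  have h2 : x ⊔ (⊤, ⊥) = (⊤, x.2) := Prod.ext (sup_top_eq _) (sup_bot_eq _)
  have h3 := φ.map_inf x (⊤, ⊥)
  have h4 := φ.map_sup x (⊤, ⊥)
  rw [h1, fix_mid hA hB hc φ] at h3
  rw [h2, fix_mid hA hB hc φ] at h4
  refine Prod.ext ?_ ?_
  · rw [h3]
    change (φ x).1 = (φ x).1 ⊓ ⊤
    rw [inf_top_eq]
  · rw [h4]
    change (φ x).2 = (φ x).2 ⊔ ⊥
    rw [sup_bot_eq]

end Blocks

section MX

variable {X : Type}

/-- There are at least three points. -/
def Three (X : Type) : Prop := Nonempty X ∧ ∀ a b : X, ∃ c, c ≠ a ∧ c ≠ b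

lemma three_option (h : Three X) : Three (Option X) := by
  obtain ⟨⟨x0⟩, h3⟩ := h
  refine ⟨⟨none⟩, fun a b => ?_⟩
  obtain ⟨c, hc, hc'⟩ := h3 (a.getD x0) (b.getD x0)
  refine ⟨some c, ?_, ?_⟩
  · rintro rfl
    exact hc rfl
  · rintro rfl
    exact hc' rfl

lemma cob_M (h : Three X) : Cob (M X) := by
  obtain ⟨⟨x0⟩, h3⟩ := h
  intro b hb
  have hco : ∀ x : X, IsCoatom (M.pt x) := by
    intro x
    refine ⟨fun h => by simp [top_def] at h, fun y hy => ?_⟩
    rcases y with _ | y | _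
    · exact absurd hy.le (M.pt_le_bot x)
    · have : x = y := hy.le
      rw [this] at hy
      exact absurd hy (lt_irrefl _)
    · rfl
  obtain ⟨c, hc, -⟩ := h3 x0 x0
  have h1 := hb _ (hco x0)
  have h2 := hb _ (hco c)
  rcases b with _ | y | _
  · rfl
  · rw [M.pt_le_pt] at h1 h2
    exact absurd (h2.symm.trans h1) hc
  · exact absurd h1 (M.top_le_pt _)

lemma isCompl_pt {x y : X} (h : x ≠ y) : IsCompl (M.pt x) (M.pt y) := by
  rw [isCompl_iff, disjoint_iff, codisjoint_iff, M.pt_inf_pt, M.pt_sup_pt, if_neg h, if_neg h]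
  exact ⟨rfl, rfl⟩

lemma uc_M (h : Three X) : UC (M X) := by
  intro a b hab huniq
  rcases a with _ | x | _
  · left; rfl
  · exfalso
    obtain ⟨c, hc, -⟩ := h.2 x x
    obtain ⟨d, hd, hd'⟩ := h.2 x c
    have h1 := huniq _ (isCompl_pt (Ne.symm hc))
    have h2 := huniq _ (isCompl_pt (Ne.symm hd))
    have h3 := h1.trans h2.symm
    simp only [M.pt.injEq] at h3
    exact hd' h3.symm
  · right; rfl

/-- The block with two factors. -/
abbrev P (X : Type) : Type := M X × M (Option X)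

/-- The automorphism of the block attached to a permutation. -/
noncomputable def pIso (τ : Equiv.Perm X) : P X ≃o P X := prIso (mIso τ) (mIso (Equiv.optionCongr τ))

lemma exists_pIso' [Finite X] (h : Three X) (φ : P X ≃o P X) :
    ∃ (σ : Equiv.Perm X) (σ' : Equiv.Perm (Option X)), φ = prIso (mIso σ) (mIso σ') := by
  obtain ⟨e, e', rfl⟩ := exists_prIso (uc_M h) (uc_M (three_option h)) (by
    rw [card_M, card_M, Finite.card_option]; omega) φ
  obtain ⟨σ, rfl⟩ := exists_mIso e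
  obtain ⟨σ', rfl⟩ := exists_mIso e'
  exact ⟨σ, σ', rfl⟩

/-- Preimage of the second coordinate under `some ∘ γ`. -/
def pre (γ : Equiv.Perm X) : M (Option X) → M X
  | M.bot => M.bot
  | M.pt none => M.top
  | M.pt (some i) => M.pt (γ.symm i)
  | M.top => M.top

lemma pre_sup (γ : Equiv.Perm X) (a b : M (Option X)) : pre γ (a ⊔ b) = pre γ a ⊔ pre γ b := by
  rcases a with _ | x | _
  · simp [pre]
  · rcases b with _ | y | _
    · simp [pre]
    · rw [M.pt_sup_pt]
      rcases x with _ | x <;> rcases y with _ | y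
      · simp [pre]
      · simp [pre]
      · simp [pre]
      · by_cases hxy : x = y
        · subst hxy
          simp [pre]
        · have h1 : γ.symm x ≠ γ.symm y := fun h => hxy (γ.symm.injective h)
          simp [pre, hxy, M.pt_sup_pt]
    · simp [pre]
  · simp [pre]

/-- The matching of a block with two factors with the line below it. -/
noncomputable def m1 (γ : Equiv.Perm X) : SupBotHom (P X) (M X) where
  toFun y := y.1 ⊔ pre γ y.2
  map_sup' a b := by
    change (a.1 ⊔ b.1) ⊔ pre γ (a.2 ⊔ b.2) = _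
    rw [pre_sup, sup_sup_sup_comm]
  map_bot' := by
    change (⊥ : M X) ⊔ M.bot = ⊥
    rw [bot_sup_eq]; rfl

lemma m1_apply (γ : Equiv.Perm X) (y : P X) : m1 γ y = y.1 ⊔ pre γ y.2 := rfl

lemma m1_top (γ : Equiv.Perm X) : m1 γ ⊤ = ⊤ := by
  rw [m1_apply]
  exact top_sup_eq _

/-- The matching of a line with the block with two factors below it. -/
noncomputable def m2 (X : Type) : SupBotHom (M X) (P X) where
  toFun s := (s, M.map some s)
  map_sup' a b := by
    rw [M.map_sup (Option.some_injective X)]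
    rfl
  map_bot' := rfl

lemma m2_apply (s : M X) : m2 X s = (s, M.map some s) := rfl

lemma m2_top : m2 X ⊤ = ⊤ := rfl

lemma m1_equiv (γ τ : Equiv.Perm X) (h : ∀ x, τ (γ x) = γ (τ x)) (b : P X) :
    mIso τ (m1 γ b) = m1 γ (pIso τ b) := by
  obtain ⟨b1, b2⟩ := b
  rw [m1_apply, m1_apply]
  change M.map τ (b1 ⊔ pre γ b2) = M.map τ b1 ⊔ pre γ (M.map (Equiv.optionCongr τ) b2)
  rw [M.map_sup τ.injective]
  congr 1
  rcases b2 with _ | x | _
  · rfl
  · rcases x with _ | x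
    · rfl
    · change M.pt (τ (γ.symm x)) = M.pt (γ.symm (τ x))
      congr 1
      rw [Equiv.eq_symm_apply, ← h, Equiv.apply_symm_apply]
  · rfl

lemma m2_equiv (τ : Equiv.Perm X) (c : M X) : pIso τ (m2 X c) = m2 X (mIso τ c) := by
  rcases c with _ | x | _ <;> rfl

lemma mIso_inj {σ τ : Equiv.Perm X} (h : mIso σ = mIso τ) : σ = τ := by
  ext1 x
  have h1 := congrArg (fun e : M X ≃o M X => e (M.pt x)) h
  simpa using h1

/-- Two consecutive matchings force the permutations to agree. -/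
theorem diamond [Finite X] (h3 : Three X) (γ : Equiv.Perm X) (e : M X ≃o M X) (e' : P X ≃o P X)
    (e'' : M X ≃o M X) (h : ∀ b, e (m1 γ b) = m1 γ (e' b)) (h' : ∀ c, e' (m2 X c) = m2 X (e'' c)) :
    ∃ τ : Equiv.Perm X, e = mIso τ ∧ e' = pIso τ ∧ e'' = mIso τ ∧ ∀ x, τ (γ x) = γ (τ x) := by
  obtain ⟨τ, rfl⟩ := exists_mIso e
  obtain ⟨σ, σ', rfl⟩ := exists_pIso' h3 e'
  obtain ⟨ρ, rfl⟩ := exists_mIso e''
  have h1 : ∀ x, τ x = σ x := by
    intro x
    have := h (M.pt x, M.bot)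
    rw [m1_apply, m1_apply] at this
    have h2 : (M.pt (τ x) : M X) = M.pt (σ x) := by
      simpa [pre, prIso] using this
    simpa using h2
  have h2 : ∀ x, ρ x = σ x ∧ σ' (some x) = some (ρ x) := by
    intro x
    have := h' (M.pt x)
    rw [m2_apply, m2_apply] at this
    have h3 : ((M.pt (σ x), M.pt (σ' (some x))) : P X) = (M.pt (ρ x), M.pt (some (ρ x))) := this
    simp only [Prod.mk.injEq, M.pt.injEq] at h3
    exact ⟨h3.1.symm, h3.2⟩
  have hστ : σ = τ := Equiv.ext (fun x => (h1 x).symm)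
  subst hστ
  have hρ : ρ = σ := Equiv.ext (fun x => (h2 x).1)
  subst hρ
  have h4 : σ' = Equiv.optionCongr ρ := by
    have h5 : ∀ x, σ' (some x) = some (ρ x) := fun x => (h2 x).2
    ext1 x
    rcases x with _ | x
    · rcases h6 : σ' none with _ | y
      · rfl
      · exfalso
        obtain ⟨z, hz⟩ := ρ.surjective y
        rw [← hz, ← h5] at h6
        exact absurd (σ'.injective h6) (by simp)
    · exact h5 x
  subst h4
  refine ⟨ρ, rfl, rfl, rfl, ?_⟩
  intro x
  have := h (M.bot, M.pt (some (γ x)))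
  rw [m1_apply, m1_apply] at this
  have h5 : (M.pt (ρ x) : M X) = M.pt (γ.symm (ρ (γ x))) := by
    simpa [pre, prIso] using this
  simp only [M.pt.injEq] at h5
  rw [h5, Equiv.apply_symm_apply]

/-! ### The tower -/

variable (α β : Equiv.Perm X)

/-- The four gluing homomorphisms. -/
noncomputable abbrev f2 := next (m1 α) (m2 X)
/-- The four gluing homomorphisms. -/
noncomputable abbrev f3 := next (f2 α) (m1 β)
/-- The four gluing homomorphisms. -/
noncomputable abbrev f4 := next (f3 α β) (m2 X)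

/-- The tower. -/
abbrev Tw : Type := Gl (f4 α β)

variable {α β}

/-- The automorphism of the tower attached to a permutation. -/
noncomputable def act (τ : Equiv.Perm X) (hα : ∀ x, τ (α x) = α (τ x))
    (hβ : ∀ x, τ (β x) = β (τ x)) : Tw α β ≃o Tw α β :=
  glIso (glIso (glIso (glIso (mIso τ) (pIso τ) (m1_equiv α τ hα)) (mIso τ)
    (next_equiv _ _ _ _ _ _ (m2_equiv τ))) (pIso τ)
    (next_equiv _ _ _ _ _ _ (m1_equiv β τ hβ))) (mIso τ)
    (next_equiv _ _ _ _ _ _ (m2_equiv τ))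

theorem rigid [Finite X] (h3 : Three X) (φ : Tw α β ≃o Tw α β) :
    ∃ (τ : Equiv.Perm X) (hα : ∀ x, τ (α x) = α (τ x)) (hβ : ∀ x, τ (β x) = β (τ x)),
      φ = act τ hα hβ := by
  have cM := cob_M h3
  have cP : Cob (P X) := (cob_M h3).prod (cob_M (three_option h3))
  obtain ⟨e4, e4', h4, rfl⟩ := exists_glIso (next_top _ _ m2_top) cM φ
  obtain ⟨e3, e3', h3', rfl⟩ := exists_glIso (next_top _ _ (m1_top β)) cP e4
  obtain ⟨e2, e2', h2, rfl⟩ := exists_glIso (next_top _ _ m2_top) cM e3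
  obtain ⟨e1, e1', h1, rfl⟩ := exists_glIso (m1_top α) cP e2
  obtain ⟨τ, rfl, rfl, rfl, hα⟩ := diamond h3 α e1 e1' e2' h1 (equiv_of_next h2)
  obtain ⟨τ', hτ, rfl, rfl, hβ⟩ := diamond h3 β (mIso τ) e3' e4' (equiv_of_next h3')
    (equiv_of_next h4)
  have := mIso_inj hτ
  subst this
  exact ⟨τ, hα, hβ, rfl⟩

end MX

/-! ### Every nontrivial finite group is the centraliser of two suitable permutations -/

section Grp

variable {G : Type} [Group G] {N : ℕ}

/-- Shift of the level. -/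
def al (G : Type) (N : ℕ) : Equiv.Perm (G × ZMod N) where
  toFun x := (x.1, x.2 + 1)
  invFun x := (x.1, x.2 - 1)
  left_inv x := by simp
  right_inv x := by simp

/-- Multiplication on the right by the element attached to the level. -/
def be (e : ZMod N ≃ G) : Equiv.Perm (G × ZMod N) where
  toFun x := (x.1 * e x.2, x.2)
  invFun x := (x.1 * (e x.2)⁻¹, x.2)
  left_inv x := by simp
  right_inv x := by simp

/-- Multiplication on the left. -/
def lm (N : ℕ) (h : G) : Equiv.Perm (G × ZMod N) where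
  toFun x := (h * x.1, x.2)
  invFun x := (h⁻¹ * x.1, x.2)
  left_inv x := by simp
  right_inv x := by simp

lemma lm_al (h : G) (x : G × ZMod N) : lm N h (al G N x) = al G N (lm N h x) := rfl

lemma lm_be (e : ZMod N ≃ G) (h : G) (x : G × ZMod N) : lm N h (be e x) = be e (lm N h x) := by
  simp [lm, be, mul_assoc]

lemma centralizer [NeZero N] (e : ZMod N ≃ G) (he : e 0 = 1) (τ : Equiv.Perm (G × ZMod N))
    (h1 : ∀ x, τ (al G N x) = al G N (τ x)) (h2 : ∀ x, τ (be e x) = be e (τ x)) :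
    ∃ h : G, τ = lm N h := by
  have hlev : ∀ g : G, (τ (g, 0)).2 = 0 := by
    intro g
    have h3 := h2 (g, 0)
    have h4 : be e (g, 0) = (g, 0) := by simp [be, he]
    rw [h4] at h3
    have h5 := congrArg Prod.fst h3
    have h6 : (τ (g, 0)).1 = (τ (g, 0)).1 * e (τ (g, 0)).2 := h5
    have h7 : e (τ (g, 0)).2 = 1 := by
      have := h6.symm
      rwa [mul_eq_left] at this
    apply e.injective
    rw [h7, he]
  have hpow : ∀ (m : ℕ) (g : G), τ (g, (m : ZMod N)) = ((τ (g, 0)).1, (m : ZMod N)) := by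
    intro m g
    induction m with
    | zero =>
      rw [Nat.cast_zero]
      exact Prod.ext rfl (hlev g)
    | succ m ih =>
      have h3 := h1 (g, (m : ZMod N))
      rw [ih] at h3
      rw [Nat.cast_succ]
      exact h3
  have hall : ∀ (j : ZMod N) (g : G), τ (g, j) = ((τ (g, 0)).1, j) := by
    intro j g
    have := hpow j.val g
    rwa [ZMod.natCast_val, ZMod.cast_id', id] at this
  refine ⟨(τ (1, 0)).1, ?_⟩
  ext1 x
  obtain ⟨g, j⟩ := x
  have h3 : τ (g, 0) = ((τ (1, 0)).1 * g, 0) := by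
    obtain ⟨k, hk⟩ := e.surjective g
    have h4 := h2 (1, k)
    have h5 : be e ((1 : G), k) = (g, k) := by simp [be, hk]
    rw [h5, hall k g, hall k 1] at h4
    have h6 := congrArg Prod.fst h4
    have h7 : (τ (g, 0)).1 = (τ (1, 0)).1 * e k := h6
    rw [hk] at h7
    exact Prod.ext h7 (hlev g)
  rw [hall j g, h3]
  rfl

end Grp

end Pool.Agent.KS6_71.ML
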