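import Mathlib
import Pool.Agent.KS6_71.ML.Tower

set_option autoImplicit false

/-!
# Order dimension, height and cardinality of the tower, and the main theorem

Helper file for `Pool.Agent.Results.MP_be50aa_co.SixDimensions`.
-/

namespace Pool.Agent.KS6_71.ML

instance {A B : Type} [Lattice A] [Lattice B] [IsModularLattice A] [IsModularLattice B] :
    IsModularLattice (A × B) where
  sup_inf_le_assoc_of_le := by
    intro x y z h
    exact ⟨IsModularLattice.sup_inf_le_assoc_of_le _ h.1,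
      IsModularLattice.sup_inf_le_assoc_of_le _ h.2⟩

section Coord

variable {X : Type} {α β : Equiv.Perm X}

/-- coordinate -/
def cr (x : Tw α β) : M X := x.1.1.1.1.1.1.1.1
/-- coordinate -/
def cy (x : Tw α β) : P X := x.1.1.1.1.1.1.1.2
/-- coordinate -/
def cs (x : Tw α β) : M X := x.1.1.1.1.1.2
/-- coordinate -/
def cz (x : Tw α β) : P X := x.1.1.1.2
/-- coordinate -/
def cq (x : Tw α β) : M X := x.1.2

lemma tw_le (x x' : Tw α β) : x ≤ x' ↔
    cr x ≤ cr x' ∧ cy x ≤ cy x' ∧ cs x ≤ cs x' ∧ cz x ≤ cz x' ∧ cq x ≤ cq x' := by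
  constructor
  · rintro ⟨⟨⟨⟨h1, h2⟩, h3⟩, h4⟩, h5⟩
    exact ⟨h1, h2, h3, h4, h5⟩
  · rintro ⟨h1, h2, h3, h4, h5⟩
    exact ⟨⟨⟨⟨h1, h2⟩, h3⟩, h4⟩, h5⟩

lemma tw_q (x : Tw α β) (h : cq x ≠ ⊥) : cr x = ⊤ ∧ cy x = ⊤ ∧ cs x = ⊤ := by
  have h1 := next_prop x h
  refine ⟨?_, ?_, ?_⟩
  · change (x.1.1.1.1).1.1.1.1 = ⊤
    rw [h1]; rfl
  · change (x.1.1.1.1).1.1.1.2 = ⊤
    rw [h1]; rfl
  · change (x.1.1.1.1).1.2 = ⊤
    rw [h1]; rfl

lemma tw_z (x : Tw α β) (h : cz x ≠ ⊥) : cr x = ⊤ ∧ cy x = ⊤ := by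
  have h1 := next_prop x.1.1 h
  refine ⟨?_, ?_⟩
  · change (x.1.1.1.1.1.1).1.1 = ⊤
    rw [h1]; rfl
  · change (x.1.1.1.1.1.1).1.2 = ⊤
    rw [h1]; rfl

lemma tw_s (x : Tw α β) (h : cs x ≠ ⊥) : cr x = ⊤ := next_prop x.1.1.1.1 h

/-! ### Order dimension -/

lemma merge {a a' b b' T : ℕ × ℕ} (ha : a ≤ T) (ha' : a' ≤ T) (hb : b ≠ 0 → a = T)
    (hb' : b' ≠ 0 → a' = T) : a + b ≤ a' + b' ↔ a ≤ a' ∧ b ≤ b' := by
  constructor
  · intro h
    by_cases h1 : b = 0
    · subst h1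
      by_cases h2 : b' = 0
      · subst h2
        simpa using h
      · rw [hb' h2]
        exact ⟨ha, zero_le⟩
    · rw [hb h1] at h ⊢
      by_cases h2 : b' = 0
      · exfalso
        subst h2
        rw [add_zero] at h
        have h3 : T + b ≤ T + 0 := by rw [add_zero]; exact h.trans ha'
        have h4 : b ≤ 0 := (add_le_add_iff_left T).1 h3
        exact h1 (le_antisymm h4 zero_le)
      · rw [hb' h2] at h ⊢
        exact ⟨le_rfl, (add_le_add_iff_left T).1 h⟩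
  · rintro ⟨h1, h2⟩
    exact add_le_add h1 h2

lemma emb_bot {n : ℕ} (f : X ≃ Fin n) {a : M X} (h : emb f a ≠ 0) : a ≠ ⊥ := by
  rintro rfl
  exact h rfl

lemma emb_le_top {n : ℕ} (f : X ≃ Fin n) (a : M X) : emb f a ≤ emb f ⊤ :=
  (emb_le f _ _).1 le_top

lemma merge_M {n : ℕ} (f : X ≃ Fin n) {a a' b b' : M X} (hb : b ≠ ⊥ → a = ⊤)
    (hb' : b' ≠ ⊥ → a' = ⊤) : emb f a + emb f b ≤ emb f a' + emb f b' ↔ a ≤ a' ∧ b ≤ b' := by
  rw [merge (T := emb f ⊤) (emb_le_top f a) (emb_le_top f a')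
    (fun h => by rw [hb (emb_bot f h)]) (fun h => by rw [hb' (emb_bot f h)]), ← emb_le, ← emb_le]

/-- The coordinates of the embedding in a product of six chains. -/
noncomputable def code {n m : ℕ} (f : X ≃ Fin n) (g : Option X ≃ Fin m) (x : Tw α β) :
    (ℕ × ℕ) × (ℕ × ℕ) × (ℕ × ℕ) :=
  (emb f (cr x) + emb f (cs x) + emb f (cq x), emb f (cy x).1 + emb f (cz x).1,
    emb g (cy x).2 + emb g (cz x).2)

lemma code_le {n m : ℕ} (f : X ≃ Fin n) (g : Option X ≃ Fin m) (x x' : Tw α β) :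
    code f g x ≤ code f g x' ↔ x ≤ x' := by
  have h1 : emb f (cr x) + emb f (cs x) + emb f (cq x) ≤
      emb f (cr x') + emb f (cs x') + emb f (cq x') ↔
      cr x ≤ cr x' ∧ cs x ≤ cs x' ∧ cq x ≤ cq x' := by
    rw [merge (T := emb f ⊤ + emb f ⊤)
      (add_le_add (emb_le_top f _) (emb_le_top f _)) (add_le_add (emb_le_top f _) (emb_le_top f _))
      (fun h => by obtain ⟨h1, -, h2⟩ := tw_q x (emb_bot f h); rw [h1, h2])
      (fun h => by obtain ⟨h1, -, h2⟩ := tw_q x' (emb_bot f h); rw [h1, h2]),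
      merge_M f (tw_s x) (tw_s x'), ← emb_le, and_assoc]
  have h2 : emb f (cy x).1 + emb f (cz x).1 ≤ emb f (cy x').1 + emb f (cz x').1 ↔
      (cy x).1 ≤ (cy x').1 ∧ (cz x).1 ≤ (cz x').1 :=
    merge_M f
      (fun h => by
        have h3 : cz x ≠ ⊥ := fun h4 => h (by rw [h4]; rfl)
        rw [(tw_z x h3).2]; rfl)
      (fun h => by
        have h3 : cz x' ≠ ⊥ := fun h4 => h (by rw [h4]; rfl)
        rw [(tw_z x' h3).2]; rfl)
  have h3 : emb g (cy x).2 + emb g (cz x).2 ≤ emb g (cy x').2 + emb g (cz x').2 ↔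
      (cy x).2 ≤ (cy x').2 ∧ (cz x).2 ≤ (cz x').2 :=
    merge_M g
      (fun h => by
        have h3 : cz x ≠ ⊥ := fun h4 => h (by rw [h4]; rfl)
        rw [(tw_z x h3).2]; rfl)
      (fun h => by
        have h3 : cz x' ≠ ⊥ := fun h4 => h (by rw [h4]; rfl)
        rw [(tw_z x' h3).2]; rfl)
  rw [tw_le]
  constructor
  · rintro ⟨a, b, c⟩
    obtain ⟨r1, r2, r3⟩ := h1.1 a
    obtain ⟨r4, r5⟩ := h2.1 b
    obtain ⟨r6, r7⟩ := h3.1 c
    exact ⟨r1, ⟨r4, r6⟩, r2, ⟨r5, r7⟩, r3⟩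
  · rintro ⟨r1, ⟨r4, r6⟩, r2, ⟨r5, r7⟩, r3⟩
    exact ⟨h1.2 ⟨r1, r2, r3⟩, h2.2 ⟨r4, r5⟩, h3.2 ⟨r6, r7⟩⟩

lemma exists_embedding [Finite X] : Nonempty (Tw α β ↪o (Fin 6 → ℕ)) := by
  obtain ⟨n, ⟨f⟩⟩ := Finite.exists_equiv_fin X
  obtain ⟨m, ⟨g⟩⟩ := Finite.exists_equiv_fin (Option X)
  refine ⟨OrderEmbedding.ofMapLEIff (fun x => ![(code f g x).1.1, (code f g x).1.2,
    (code f g x).2.1.1, (code f g x).2.1.2, (code f g x).2.2.1, (code f g x).2.2.2]) ?_⟩
  intro x x'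
  rw [← code_le f g]
  simp only [Pi.le_def, Fin.forall_fin_succ, Prod.le_def]
  simp [and_assoc]

/-! ### Height -/

/-- The rank function. -/
def rank (x : Tw α β) : ℕ :=
  rk (cr x) + (rk (cy x).1 + rk (cy x).2) + rk (cs x) + (rk (cz x).1 + rk (cz x).2) + rk (cq x)

lemma rank_lt (x : Tw α β) : rank x < 15 := by
  have h1 := rk_le (cr x)
  have h2 := rk_le (cy x).1
  have h3 := rk_le (cy x).2
  have h4 := rk_le (cs x)
  have h5 := rk_le (cz x).1
  have h6 := rk_le (cz x).2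
  have h7 := rk_le (cq x)
  unfold rank
  omega

lemma rank_strict {x x' : Tw α β} (h : x < x') : rank x < rank x' := by
  have hle := (tw_le x x').1 h.le
  obtain ⟨h1, h2, h3, h4, h5⟩ := hle
  have r1 := rk_mono h1
  have r2 := rk_mono h2.1
  have r2' := rk_mono h2.2
  have r3 := rk_mono h3
  have r4 := rk_mono h4.1
  have r4' := rk_mono h4.2
  have r5 := rk_mono h5
  by_contra hcon
  unfold rank at hcon
  have e1 := rk_inj h1 (by omega)
  have e2 := rk_inj h2.1 (by omega)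
  have e2' := rk_inj h2.2 (by omega)
  have e3 := rk_inj h3 (by omega)
  have e4 := rk_inj h4.1 (by omega)
  have e4' := rk_inj h4.2 (by omega)
  have e5 := rk_inj h5 (by omega)
  have : x' ≤ x := (tw_le x' x).2 ⟨e1.ge, ⟨e2.ge, e2'.ge⟩, e3.ge, ⟨e4.ge, e4'.ge⟩, e5.ge⟩
  exact absurd h (not_lt_of_ge this)

lemma krull : Order.krullDim (Tw α β) ≤ ((14 : ℕ) : WithBot ℕ∞) := by
  have hf : StrictMono (fun a : Tw α β => (⟨rank a, rank_lt a⟩ : Fin 15)) :=
    fun a b h => rank_strict h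
  refine (Order.krullDim_le_of_strictMono _ hf).trans ?_
  unfold Order.krullDim
  refine iSup_le fun p => ?_
  have := p.length_lt_card
  simp only [Fintype.card_fin] at this
  exact_mod_cast Nat.le_of_lt_succ this

/-! ### Cardinality -/

open Classical in
/-- The window of an element. -/
noncomputable def win (x : Tw α β) : Fin 4 × (M X × P X) :=
  if cq x ≠ ⊥ then (3, (cq x, cz x))
  else if cz x ≠ ⊥ then (2, (cs x, cz x))
  else if cs x ≠ ⊥ then (1, (cs x, cy x))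
  else (0, (cr x, cy x))

lemma tw_ext {x x' : Tw α β} (h1 : cr x = cr x') (h2 : cy x = cy x') (h3 : cs x = cs x')
    (h4 : cz x = cz x') (h5 : cq x = cq x') : x = x' :=
  le_antisymm ((tw_le _ _).2 ⟨h1.le, h2.le, h3.le, h4.le, h5.le⟩)
    ((tw_le _ _).2 ⟨h1.ge, h2.ge, h3.ge, h4.ge, h5.ge⟩)

/-- The coordinates from the window. -/
def back : Fin 4 × (M X × P X) → M X × P X × M X × P X × M X
  | (0, (c, p)) => (c, p, ⊥, ⊥, ⊥)
  | (1, (c, p)) => (⊤, p, c, ⊥, ⊥)
  | (2, (c, p)) => (⊤, ⊤, c, p, ⊥)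
  | (3, (c, p)) => (⊤, ⊤, ⊤, p, c)

lemma back_win (x : Tw α β) : back (win x) = (cr x, cy x, cs x, cz x, cq x) := by
  classical
  unfold win
  by_cases hq : cq x = ⊥
  · by_cases hz : cz x = ⊥
    · by_cases hs : cs x = ⊥
      · simp only [hq, hz, hs, ne_eq, not_true_eq_false, if_false, back]
      · have h1 := tw_s x hs
        simp only [hq, hz, hs, ne_eq, not_true_eq_false, not_false_eq_true, if_false, if_true,
          back, h1]
    · obtain ⟨h1, h2⟩ := tw_z x hz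
      simp only [hq, hz, ne_eq, not_true_eq_false, not_false_eq_true, if_false, if_true,
        back, h1, h2]
  · obtain ⟨h1, h2, h3⟩ := tw_q x hq
    simp only [hq, ne_eq, not_false_eq_true, if_true, back, h1, h2, h3]

lemma win_inj : Function.Injective (win (α := α) (β := β)) := by
  intro x x' h
  have h1 := congrArg back h
  rw [back_win, back_win] at h1
  simp only [Prod.mk.injEq] at h1
  obtain ⟨h1, h2, h3, h4, h5⟩ := h1
  exact tw_ext h1 h2 h3 h4 h5

lemma card_tw [Finite X] : Nat.card (Tw α β) ≤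
    4 * ((Nat.card X + 2) * ((Nat.card X + 2) * (Nat.card X + 3))) := by
  have h1 := Nat.card_le_card_of_injective _ (win_inj (α := α) (β := β))
  rw [Nat.card_prod, Nat.card_prod, Nat.card_prod, card_M, card_M, Finite.card_option,
    Nat.card_fin] at h1
  exact h1

/-! ### The action of a group -/

lemma glIso_step {A B : Type} [Lattice A] [Lattice B] [BoundedOrder A] [BoundedOrder B]
    {f : SupBotHom B A} {e e1 e2 : A ≃o A} {e' e1' e2' : B ≃o B} (h : ∀ b, e (f b) = f (e' b))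
    (h1 : ∀ b, e1 (f b) = f (e1' b)) (h2 : ∀ b, e2 (f b) = f (e2' b)) (he : e = e1 * e2)
    (he' : e' = e1' * e2') : glIso e e' h = glIso e1 e1' h1 * glIso e2 e2' h2 := by
  subst he
  subst he'
  apply OrderIso.ext
  funext x
  rfl

lemma mIso_mul (σ τ : Equiv.Perm X) : mIso (σ * τ) = mIso σ * mIso τ := by
  apply OrderIso.ext
  funext a
  rcases a with _ | x | _ <;> rfl

lemma pIso_mul (σ τ : Equiv.Perm X) : pIso (σ * τ) = pIso σ * pIso τ := by
  apply OrderIso.ext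
  funext a
  obtain ⟨a, b⟩ := a
  refine Prod.ext ?_ ?_
  · rcases a with _ | x | _ <;> rfl
  · rcases b with _ | x | _
    · rfl
    · rcases x with _ | x <;> rfl
    · rfl

lemma act_mul {σ τ : Equiv.Perm X} (hα : ∀ x, σ (α x) = α (σ x)) (hβ : ∀ x, σ (β x) = β (σ x))
    (hα' : ∀ x, τ (α x) = α (τ x)) (hβ' : ∀ x, τ (β x) = β (τ x))
    (h : ∀ x, (σ * τ) (α x) = α ((σ * τ) x)) (h' : ∀ x, (σ * τ) (β x) = β ((σ * τ) x)) :
    act (σ * τ) h h' = act σ hα hβ * act τ hα' hβ' := by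
  unfold act
  exact glIso_step _ _ _ (glIso_step _ _ _ (glIso_step _ _ _ (glIso_step _ _ _ (mIso_mul σ τ)
    (pIso_mul σ τ)) (mIso_mul σ τ)) (pIso_mul σ τ)) (mIso_mul σ τ)

lemma act_inj {σ τ : Equiv.Perm X} {hα : ∀ x, σ (α x) = α (σ x)} {hβ : ∀ x, σ (β x) = β (σ x)}
    {hα' : ∀ x, τ (α x) = α (τ x)} {hβ' : ∀ x, τ (β x) = β (τ x)}
    (h : act σ hα hβ = act τ hα' hβ') : σ = τ := by
  ext1 x
  have h1 := congrArg (fun e : Tw α β ≃o Tw α β =>
    cr (e (lo (lo (lo (lo (M.pt x))))))) h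
  have h2 : (M.pt (σ x) : M X) = M.pt (τ x) := h1
  simpa using h2

end Coord

/-- Every finite group is the automorphism group of a finite modular lattice of order dimension at
most six, height at most fourteen and polynomial cardinality. -/
theorem main (G : Type) [Group G] [Finite G] :
    ∃ (L : Type) (_ : Lattice L) (_ : IsModularLattice L) (_ : Finite L),
      Nonempty (G ≃* (L ≃o L)) ∧ Nonempty (L ↪o (Fin 6 → ℕ)) ∧
      Order.krullDim L ≤ ((14 : ℕ) : WithBot ℕ∞) ∧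
      Nat.card L ≤ 4 * (Nat.card G ^ 2 + 3) ^ 3 := by
  classical
  rcases subsingleton_or_nontrivial G with hs | hn
  · refine ⟨PUnit, inferInstance, inferInstance, inferInstance, ?_, ?_, ?_, ?_⟩
    · refine ⟨MulEquiv.mk ⟨fun _ => 1, fun _ => 1, fun a => Subsingleton.elim _ _, fun φ => ?_⟩
        (fun a b => ?_)⟩
      · apply OrderIso.ext
        funext x
        rfl
      · apply OrderIso.ext
        funext x
        rfl
    · exact ⟨⟨⟨fun _ => 0, fun _ _ _ => rfl⟩, by intro a b; simp⟩⟩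
    · rw [Order.krullDim_eq_zero]
      exact_mod_cast Nat.zero_le 14
    · have h1 : 1 ≤ (Nat.card G ^ 2 + 3) ^ 3 := Nat.one_le_pow _ _ (by omega)
      have h2 : Nat.card PUnit = 1 := by simp
      rw [h2]
      omega
  · have hN2 : 2 ≤ Nat.card G := Finite.one_lt_card
    set N := Nat.card G with hN
    have : NeZero N := ⟨by omega⟩
    have : Fact (1 < N) := ⟨by omega⟩
    -- an enumeration with `e 0 = 1`
    obtain ⟨e, he⟩ : ∃ e : ZMod N ≃ G, e 0 = 1 := by
      have hc : Nat.card (ZMod N) = Nat.card G := by rw [Nat.card_zmod]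
      have e0 : ZMod N ≃ G := (Finite.card_eq.1 hc).some
      exact ⟨e0.trans (Equiv.swap (e0 0) 1), by simp⟩
    have h3 : Three (G × ZMod N) := by
      refine ⟨⟨(1, 0)⟩, fun a b => ?_⟩
      obtain ⟨g, hg⟩ := exists_ne a.1
      obtain ⟨k, hk⟩ := exists_ne b.2
      exact ⟨(g, k), fun h => hg (congrArg Prod.fst h), fun h => hk (congrArg Prod.snd h)⟩
    refine ⟨Tw (al G N) (be e), inferInstance, inferInstance, inferInstance, ?_,
      exists_embedding, krull, ?_⟩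
    · have hmul : ∀ a b : G, lm N (a * b) = lm N a * lm N b := by
        intro a b
        ext1 y
        simp [lm, mul_assoc]
      have key : ∀ (a b : G) (τ : Equiv.Perm (G × ZMod N)) (hτ : τ = lm N a * lm N b)
          (q1 : ∀ x, τ (al G N x) = al G N (τ x)) (q2 : ∀ x, τ (be e x) = be e (τ x)),
          act τ q1 q2 = act (lm N a) (lm_al a) (lm_be e a) * act (lm N b) (lm_al b) (lm_be e b) := by
        rintro a b τ rfl q1 q2
        exact act_mul _ _ _ _ _ _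
      let Φ : G →* (Tw (al G N) (be e) ≃o Tw (al G N) (be e)) :=
        MonoidHom.mk' (fun h => act (lm N h) (lm_al h) (lm_be e h))
          (fun a b => key a b _ (hmul a b) _ _)
      refine ⟨MulEquiv.ofBijective Φ ⟨?_, ?_⟩⟩
      · intro g h hgh
        have h5 : lm N g = lm N h :=
          act_inj (hα := lm_al g) (hβ := lm_be e g) (hα' := lm_al h) (hβ' := lm_be e h) hgh
        have h6 := congrArg (fun τ : Equiv.Perm (G × ZMod N) => (τ (1, 0)).1) h5
        simpa [lm] using h6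
      · intro φ
        obtain ⟨τ, h1, h2, rfl⟩ := rigid h3 φ
        obtain ⟨h, rfl⟩ := centralizer e he τ h1 h2
        exact ⟨h, rfl⟩
    · refine card_tw.trans ?_
      have h4 : Nat.card (G × ZMod N) = N ^ 2 := by
        rw [Nat.card_prod, Nat.card_zmod, pow_two]
      rw [h4]
      have h5 : (N ^ 2 + 2) ≤ N ^ 2 + 3 := by omega
      calc 4 * ((N ^ 2 + 2) * ((N ^ 2 + 2) * (N ^ 2 + 3)))
          ≤ 4 * ((N ^ 2 + 3) * ((N ^ 2 + 3) * (N ^ 2 + 3))) := by gcongr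
        _ = 4 * (N ^ 2 + 3) ^ 3 := by ring

end Pool.Agent.KS6_71.ML
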