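import Mathlib

set_option autoImplicit false

/-!
# Finite modular lattices of order dimension at most two

Helper file for `Pool.Agent.Results.MP_be50aa_co.SixDimensions`: the automorphism group of a finite
modular lattice of order dimension at most two is trivial or of even order.
-/

namespace Pool.Agent.KS6_71.ML.Planar

variable {L : Type} [Lattice L]

lemma finite_aut [Finite L] : Finite (L ≃o L) :=
  Finite.of_injective (fun e : L ≃o L => (e : L → L)) (fun _ _ h => DFunLike.coe_injective h)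

/-- An automorphism of finite order has antichains as orbits. -/
lemma eq_of_le [Finite L] (φ : L ≃o L) (x : L) (h : x ≤ φ x) : φ x = x := by
  have := finite_aut (L := L)
  obtain ⟨n, hn, hn'⟩ := (isOfFinOrder_iff_pow_eq_one.1 (isOfFinOrder_of_finite φ))
  have h1 : ∀ k : ℕ, φ x ≤ (φ ^ (k + 1)) x := by
    intro k
    induction k with
    | zero => simp
    | succ k ih =>
      refine ih.trans ?_
      rw [pow_succ (φ) (k + 1), RelIso.mul_apply]
      exact (φ ^ (k + 1)).monotone h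
  have h2 := h1 (n - 1)
  rw [Nat.sub_add_cancel hn, hn', RelIso.one_apply] at h2
  exact le_antisymm h2 h

variable [IsModularLattice L]

/-- The middle one of three atoms over `x0`. -/
lemma mid (p q : L → ℕ) (hpq : ∀ x y, x ≤ y ↔ p x ≤ p y ∧ q x ≤ q y) {x0 u v w : L}
    (hu : ∀ y, y < u ↔ y ≤ x0) (hv : ∀ y, y < v ↔ y ≤ x0) (hw : ∀ y, y < w ↔ y ≤ x0)
    (huv : ¬ u ≤ v) (hvu : ¬ v ≤ u) (hvw : ¬ v ≤ w) (hwv : ¬ w ≤ v) (huw : ¬ u ≤ w)
    (hwu : ¬ w ≤ u) (h1 : p u ≤ p v) (h2 : p v ≤ p w) :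
    u ⊔ v = u ⊔ w ∧ v ⊔ w = u ⊔ w ∧ ∀ z, v < z → u ⊔ w ≤ z := by
  have cov : ∀ {a b : L}, (∀ y, y < a ↔ y ≤ x0) → (∀ y, y < b ↔ y ≤ x0) → ¬ a ≤ b →
      ¬ b ≤ a → a ⋖ a ⊔ b := by
    intro a b ha hb hab hba
    have h3 : a ⊓ b ⋖ b := by
      refine ⟨lt_of_le_of_ne inf_le_right (fun h => hba (inf_eq_right.1 h)), ?_⟩
      intro c hc hc'
      have h4 : c ≤ x0 := (hb c).1 hc'
      have h5 : c < a := (ha c).2 h4
      exact absurd hc (not_lt_of_ge (le_inf h5.le hc'.le))
    exact covBy_sup_of_inf_covBy_right h3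
  have q1 : q v < q u := by
    by_contra hc
    exact huv ((hpq _ _).2 ⟨h1, by omega⟩)
  have q2 : q w < q v := by
    by_contra hc
    exact hvw ((hpq _ _).2 ⟨h2, by omega⟩)
  have hvt : v ≤ u ⊔ w := by
    rw [hpq]
    have h3 := (hpq _ _).1 (le_sup_left : u ≤ u ⊔ w)
    have h4 := (hpq _ _).1 (le_sup_right : w ≤ u ⊔ w)
    omega
  have e1 : u ⊔ v = u ⊔ w := by
    have h3 := (cov hu hw huw hwu).2 (c := u ⊔ v) (cov hu hv huv hvu).1
    by_contra hne
    exact h3 (lt_of_le_of_ne (sup_le le_sup_left hvt) hne)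
  have e2 : v ⊔ w = u ⊔ w := by
    have h3 := (cov hw hu hwu huw).2 (c := v ⊔ w) (by
      rw [sup_comm]; exact (cov hw hv hwv hvw).1)
    by_contra hne
    refine h3 (lt_of_le_of_ne (sup_le (by rw [sup_comm]; exact hvt) le_sup_left) ?_)
    rw [sup_comm w u]
    exact hne
  refine ⟨e1, e2, ?_⟩
  intro z hz
  by_contra hcon
  have hzu : ¬ u ≤ z := fun h => hcon (by rw [← e1]; exact sup_le h hz.le)
  have hzw : ¬ w ≤ z := fun h => hcon (by rw [← e2]; exact sup_le hz.le h)
  have h3 := (hpq _ _).1 hz.le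
  have q3 : q z < q u := by
    by_contra hc
    exact hzu ((hpq _ _).2 ⟨by omega, by omega⟩)
  have p3 : p z < p w := by
    by_contra hc
    exact hzw ((hpq _ _).2 ⟨by omega, by omega⟩)
  have h4 : z ≤ u ⊔ w := by
    rw [hpq]
    have h5 := (hpq _ _).1 (le_sup_left : u ≤ u ⊔ w)
    have h6 := (hpq _ _).1 (le_sup_right : w ≤ u ⊔ w)
    omega
  have h5 : v ⋖ u ⊔ w := by
    rw [← e2]
    exact cov hv hw hvw hwv
  have h6 := h5.2 hz
  exact h6 (lt_of_le_of_ne h4 (fun h8 => hcon h8.ge))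

/-- Interchanging two doubly irreducible elements with the same neighbours. -/
lemma exists_swap {x0 t v v' : L} (hne : v ≠ v') (h1 : ∀ y, y < v ↔ y ≤ x0)
    (h2 : ∀ y, y < v' ↔ y ≤ x0) (h3 : ∀ z, v < z ↔ t ≤ z) (h4 : ∀ z, v' < z ↔ t ≤ z) :
    ∃ σ : L ≃o L, σ ≠ 1 ∧ σ ^ 2 = 1 := by
  classical
  have hn1 : ¬ v < v' := fun h => by
    have h5 := (h3 _).1 h
    have h6 := (h4 t).2 le_rfl
    exact absurd h6 (not_lt_of_ge h5)
  have hn2 : ¬ v' < v := fun h => by
    have h5 := (h4 _).1 h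
    have h6 := (h3 t).2 le_rfl
    exact absurd h6 (not_lt_of_ge h5)
  have key : ∀ y z, y ≤ z → Equiv.swap v v' y ≤ Equiv.swap v v' z := by
    intro y z hyz
    rcases hyz.eq_or_lt with rfl | hlt
    · exact le_rfl
    · by_cases y1 : y = v
      · subst y1
        have z1 : z ≠ y := hlt.ne'
        have z2 : z ≠ v' := fun h => hn1 (h ▸ hlt)
        rw [Equiv.swap_apply_left, Equiv.swap_apply_of_ne_of_ne z1 z2]
        exact ((h4 z).2 ((h3 z).1 hlt)).le
      · by_cases y2 : y = v'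
        · subst y2
          have z2 : z ≠ y := hlt.ne'
          have z1 : z ≠ v := fun h => hn2 (h ▸ hlt)
          rw [Equiv.swap_apply_right, Equiv.swap_apply_of_ne_of_ne z1 z2]
          exact ((h3 z).2 ((h4 z).1 hlt)).le
        · rw [Equiv.swap_apply_of_ne_of_ne y1 y2]
          by_cases z1 : z = v
          · subst z1
            rw [Equiv.swap_apply_left]
            exact ((h2 y).2 ((h1 y).1 hlt)).le
          · by_cases z2 : z = v'
            · subst z2
              rw [Equiv.swap_apply_right]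
              exact ((h1 y).2 ((h2 y).1 hlt)).le
            · rw [Equiv.swap_apply_of_ne_of_ne z1 z2]
              exact hyz
  let σ : L ≃o L :=
    { toEquiv := Equiv.swap v v'
      map_rel_iff' := by
        intro y z
        constructor
        · intro h
          have h5 := key _ _ h
          rwa [Equiv.swap_apply_self, Equiv.swap_apply_self] at h5
        · exact key y z }
  refine ⟨σ, ?_, ?_⟩
  · intro h
    have h5 : σ v = v := by rw [h]; rfl
    have h6 : σ v = v' := Equiv.swap_apply_left v v'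
    exact hne (h5.symm.trans h6)
  · apply OrderIso.ext
    funext y
    rw [pow_two]
    change Equiv.swap v v' (Equiv.swap v v' y) = y
    exact Equiv.swap_apply_self _ _ _

theorem odd_aut [Finite L] (f : L ↪o (Fin 2 → ℕ)) (hodd : Odd (Nat.card (L ≃o L))) :
    Nat.card (L ≃o L) = 1 := by
  classical
  have hfin := finite_aut (L := L)
  by_contra hne
  have hnt : Nontrivial (L ≃o L) := by
    by_contra hsub
    rw [not_nontrivial_iff_subsingleton] at hsub
    exact hne (Nat.card_eq_one_iff_unique.2 ⟨hsub, ⟨1⟩⟩)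
  -- no involutions
  have hinv : ¬ ∃ σ : L ≃o L, σ ≠ 1 ∧ σ ^ 2 = 1 := by
    rintro ⟨σ, h1, h2⟩
    have h3 : orderOf σ = 2 := orderOf_eq_prime h2 h1
    have h4 : 2 ∣ Nat.card (L ≃o L) := h3 ▸ orderOf_dvd_natCard σ
    exact (Nat.not_even_iff_odd.2 hodd) (even_iff_two_dvd.2 h4)
  obtain ⟨φ, hφ⟩ := exists_ne (1 : L ≃o L)
  have hex : ∃ x, φ x ≠ x := by
    by_contra hcon
    push Not at hcon
    exact hφ (OrderIso.ext (funext hcon))
  have hwf : WellFounded ((· < ·) : L → L → Prop) := wellFounded_lt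
  obtain ⟨a, ha, hmin⟩ := hwf.has_min {x | φ x ≠ x} hex
  have hmin' : ∀ y, y < a → φ y = y := fun y hy => by
    by_contra hc
    exact hmin y hc hy
  have ha' : φ a ≠ a := ha
  have hsq : φ (φ a) ≠ a := by
    intro h
    obtain ⟨k, hk⟩ := hodd
    have h1 : φ ^ (2 * k + 1) = 1 := by
      rw [← hk]
      exact pow_card_eq_one'
    have h2 : ∀ j : ℕ, (φ ^ (2 * j)) a = a := by
      intro j
      induction j with
      | zero => simp
      | succ j ih =>
        rw [show 2 * (j + 1) = 2 * j + 1 + 1 by ring, pow_succ, pow_succ, RelIso.mul_apply,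
          RelIso.mul_apply, h, ih]
    have h3 : (φ ^ (2 * k + 1)) a = φ a := by
      rw [pow_succ', RelIso.mul_apply, h2]
    rw [h1] at h3
    exact ha' h3.symm
  set b := φ a with hb
  set c := φ b with hc
  -- pairwise incomparable
  have inc : ∀ ψ : L ≃o L, ∀ x, ψ x ≠ x → ¬ x ≤ ψ x ∧ ¬ ψ x ≤ x := by
    intro ψ x hx
    refine ⟨fun h => hx (eq_of_le ψ x h), fun h => ?_⟩
    have h1 := eq_of_le ψ.symm x (by rw [← ψ.le_iff_le, ψ.apply_symm_apply]; exact h)
    apply hx
    conv_lhs => rw [← h1]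
    exact ψ.apply_symm_apply x
  have iab := inc φ a ha'
  have hbc : φ b ≠ b := fun h => ha' (φ.injective h)
  have ibc := inc φ b hbc
  have iac := inc (φ * φ) a hsq
  change ¬ a ≤ c ∧ ¬ c ≤ a at iac
  change ¬ a ≤ b ∧ ¬ b ≤ a at iab
  change ¬ b ≤ c ∧ ¬ c ≤ b at ibc
  -- common lower cover
  have la : ∀ y, y < a ↔ y ≤ a ⊓ b := by
    intro y
    constructor
    · intro h
      refine le_inf h.le ?_
      have h1 := φ.monotone h.le
      rw [hmin' y h] at h1
      exact h1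
    · intro h
      refine lt_of_le_of_ne (h.trans inf_le_left) ?_
      rintro rfl
      exact iab.1 (h.trans inf_le_right)
  have hx0 : φ (a ⊓ b) = a ⊓ b := hmin' _ ((la _).2 le_rfl)
  have step : ∀ v, (∀ y, y < v ↔ y ≤ a ⊓ b) → ∀ y, y < φ v ↔ y ≤ a ⊓ b := by
    intro v hv y
    obtain ⟨y, rfl⟩ := φ.surjective y
    rw [φ.lt_iff_lt, hv]
    conv_rhs => rw [← hx0]
    rw [φ.le_iff_le]
  have lb := step a la
  have lc := step b lb
  -- the two coordinates
  let p : L → ℕ := fun x => f x 0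
  let q : L → ℕ := fun x => f x 1
  have hpq : ∀ x y, x ≤ y ↔ p x ≤ p y ∧ q x ≤ q y := by
    intro x y
    rw [← f.le_iff_le, Pi.le_def, Fin.forall_fin_two]
  have key : ∃ v, (v = a ∨ v = b ∨ v = c) ∧ a ⊔ b = b ⊔ c ∧ ∀ z, v < z → a ⊔ b ≤ z := by
    have mab := fun u v w hu hv hw huv hvu hvw hwv huw hwu h1 h2 =>
      mid p q hpq (x0 := a ⊓ b) (u := u) (v := v) (w := w) hu hv hw huv hvu hvw hwv huw hwu h1 h2
    rcases le_total (p a) (p b) with h1 | h1 <;> rcases le_total (p b) (p c) with h2 | h2 <;>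
      rcases le_total (p a) (p c) with h3 | h3
    · -- a b c
      obtain ⟨e1, e2, e3⟩ := mab a b c la lb lc iab.1 iab.2 ibc.1 ibc.2 iac.1 iac.2 h1 h2
      exact ⟨b, by simp, by rw [e1, e2], fun z hz => by rw [e1]; exact e3 z hz⟩
    · obtain ⟨e1, e2, e3⟩ := mab a b c la lb lc iab.1 iab.2 ibc.1 ibc.2 iac.1 iac.2 h1 h2
      exact ⟨b, by simp, by rw [e1, e2], fun z hz => by rw [e1]; exact e3 z hz⟩
    · -- a c b
      obtain ⟨e1, e2, e3⟩ := mab a c b la lc lb iac.1 iac.2 ibc.2 ibc.1 iab.1 iab.2 h3 h2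
      exact ⟨c, by simp, by rw [← e2, sup_comm], e3⟩
    · -- c a b
      obtain ⟨e1, e2, e3⟩ := mab c a b lc la lb iac.2 iac.1 iab.1 iab.2 ibc.2 ibc.1 h3 h1
      exact ⟨a, by simp, by rw [e2, sup_comm], fun z hz => by rw [e2]; exact e3 z hz⟩
    · -- b a c
      obtain ⟨e1, e2, e3⟩ := mab b a c lb la lc iab.2 iab.1 iac.1 iac.2 ibc.1 ibc.2 h1 h3
      exact ⟨a, by simp, by rw [sup_comm, e1], fun z hz => by rw [sup_comm, e1]; exact e3 z hz⟩
    · -- b c a
      obtain ⟨e1, e2, e3⟩ := mab b c a lb lc la ibc.1 ibc.2 iac.2 iac.1 iab.2 iab.1 h2 h3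
      exact ⟨c, by simp, by rw [e1, sup_comm], fun z hz => by rw [sup_comm]; exact e3 z hz⟩
    · -- c b a
      obtain ⟨e1, e2, e3⟩ := mab c b a lc lb la ibc.2 ibc.1 iab.2 iab.1 iac.2 iac.1 h2 h1
      exact ⟨b, by simp, by rw [sup_comm a b, sup_comm b c, e1, e2],
        fun z hz => by rw [sup_comm a b, e2]; exact e3 z hz⟩
    · obtain ⟨e1, e2, e3⟩ := mab c b a lc lb la ibc.2 ibc.1 iab.2 iab.1 iac.2 iac.1 h2 h1
      exact ⟨b, by simp, by rw [sup_comm a b, sup_comm b c, e1, e2],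
        fun z hz => by rw [sup_comm a b, e2]; exact e3 z hz⟩
  obtain ⟨v, hv, hjoin, hfree⟩ := key
  have ht : φ (a ⊔ b) = a ⊔ b := by
    rw [φ.map_sup]
    exact hjoin.symm
  have hv1 : ∀ y, y < v ↔ y ≤ a ⊓ b := by
    rcases hv with rfl | rfl | rfl
    · exact la
    · exact lb
    · exact lc
  have hvt : v < a ⊔ b := by
    rcases hv with rfl | rfl | rfl
    · exact lt_of_le_of_ne le_sup_left (fun h => iab.2 (by rw [h]; exact le_sup_right))
    · exact lt_of_le_of_ne le_sup_right (fun h => iab.1 (by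
        have h5 : a ≤ a ⊔ b := le_sup_left
        rw [← h] at h5
        exact h5))
    · exact lt_of_le_of_ne (by rw [hjoin]; exact le_sup_right) (fun h => iac.1 (by
        have h5 : a ≤ a ⊔ b := le_sup_left
        rw [← h] at h5
        exact h5))
  have hv2 : ∀ z, v < z ↔ a ⊔ b ≤ z := fun z => ⟨hfree z, fun h => hvt.trans_le h⟩
  have hv3 : φ v ≠ v := by
    rcases hv with rfl | rfl | rfl
    · exact ha'
    · exact hbc
    · exact fun h => hbc (φ.injective h)
  apply hinv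
  refine exists_swap (Ne.symm hv3) hv1 (step v hv1) hv2 ?_
  intro z
  obtain ⟨z, rfl⟩ := φ.surjective z
  rw [φ.lt_iff_lt, hv2]
  conv_rhs => rw [← ht]
  rw [φ.le_iff_le]

end Pool.Agent.KS6_71.ML.Planar
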